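import Pool.Agent.Lib.MP_3080d1_gt.Main

set_option autoImplicit false

/-!
# No closed analytic mirror focuses one point onto another after two reflections

The Euclidean plane is `ℂ`, with its real inner product. We prove the negated form of question Q1
of the problem. Since the algebraic curves of question Q2 are, by definition, closed analytic
curves lying in the zero set of a polynomial, this also answers Q2 in the negative.
-/

namespace Pool.Agent.Results.MP_3080d1_gt.NoTwoReflectionFocus

/-- `c` is a regular real-analytic parametrization, of period `T`, of a simple closed curve. -/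
structure IsAnalyticClosedCurve (c : ℝ → ℂ) (T : ℝ) : Prop where
  period_pos : 0 < T
  analytic : ∀ s, AnalyticAt ℝ c s
  periodic : ∀ s, c (s + T) = c s
  regular : ∀ s, deriv c s ≠ 0
  simple : Set.InjOn c (Set.Ico 0 T)

/-- `Ω` is a bounded open region whose boundary is the curve. -/
structure IsInterior (c : ℝ → ℂ) (Ω : Set ℂ) : Prop where
  isOpen : IsOpen Ω
  isBounded : Bornology.IsBounded Ω
  frontier_eq : frontier Ω = Set.range c

/-- The law of reflection: a ray arriving at `c s` with direction `u` leaves with the direction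
which is the mirror image of `u` in the tangent line at `c s`. -/
noncomputable def reflectAt (c : ℝ → ℂ) (s : ℝ) (u : ℂ) : ℂ :=
  (Submodule.span ℝ {deriv c s}).reflection u

/-- The ray leaving `x` in the direction `u` passes through `y` after its second reflection and
before the third one. It travels inside `Ω` until it meets the curve at `c s`, is reflected
there, travels on to `c t`, is reflected there, and then travels on to `y`.
(After the first reflection we only ask that it stays in the closed region, so the path may even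
graze the mirror between its reflections; this makes the non-existence theorem below
stronger.) -/
def PassesAfterTwo (c : ℝ → ℂ) (Ω : Set ℂ) (x y u : ℂ) : Prop :=
  ∃ s t r₁ r₂ r₃ : ℝ, 0 < r₁ ∧ 0 < r₂ ∧ 0 < r₃ ∧
    c s = x + r₁ • u ∧ openSegment ℝ x (c s) ⊆ Ω ∧
    c t = c s + r₂ • reflectAt c s u ∧ openSegment ℝ (c s) (c t) ⊆ closure Ω ∧
    y = c t + r₃ • reflectAt c t (reflectAt c s u) ∧ openSegment ℝ (c t) y ⊆ closure Ω

/-- For every closed analytic curve and every two distinct points `x`, `y` inside it, some ray
from `x` fails to pass through `y` between its second and its third reflection; and the direction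
of this ray can be found outside any given countable set of directions. -/
theorem result (c : ℝ → ℂ) (T : ℝ) (hc : IsAnalyticClosedCurve c T) (Ω : Set ℂ)
    (hΩ : IsInterior c Ω) (x y : ℂ) (hx : x ∈ Ω) (hy : y ∈ Ω) (hxy : x ≠ y)
    (N : Set ℂ) (hN : N.Countable) :
    ∃ u : ℂ, ‖u‖ = 1 ∧ u ∉ N ∧ ¬ PassesAfterTwo c Ω x y u := by
  by_contra hcon
  push Not at hcon
  have hinj : ∀ s t, c s = c t → ∃ m : ℤ, t = s + m * T := by
    intro s t hst
    have hper : Function.Periodic c T := hc.periodic
    obtain ⟨m, hm, -⟩ := existsUnique_add_zsmul_mem_Ico hc.period_pos s 0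
    obtain ⟨n, hn, -⟩ := existsUnique_add_zsmul_mem_Ico hc.period_pos t 0
    rw [zero_add, zsmul_eq_mul] at hm hn
    have h1 : c (s + m * T) = c (t + n * T) := by
      rw [hper.int_mul m s, hper.int_mul n t, hst]
    have h2 := hc.simple hm hn h1
    refine ⟨m - n, ?_⟩
    push_cast
    linarith
  have hC : Pool.Agent.Lib.MP3080d1.Crv c T :=
    ⟨hc.period_pos, hc.analytic, hc.periodic, hc.regular, hinj⟩
  refine hC.main hΩ.isOpen hΩ.isBounded hΩ.frontier_eq hx hy hxy hN ?_
  intro u hu huN
  obtain ⟨s, t, r₁, r₂, r₃, hr₁, hr₂, hr₃, e1, e2, e3, -, e4, e5⟩ := hcon u hu huN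
  have hR : ∀ s u, reflectAt c s u = Pool.Agent.Lib.MP3080d1.Rf (deriv c s) u := fun s u =>
    Pool.Agent.Lib.MP3080d1.reflection_eq_Rf (hc.regular s) u
  have hseg : ∀ (a b : ℂ) (τ : ℝ), 0 < τ → τ < 1 → a + τ * (b - a) ∈ openSegment ℝ a b := by
    intro a b τ h1 h2
    refine ⟨1 - τ, τ, by linarith, h1, by ring, ?_⟩
    rw [Complex.real_smul, Complex.real_smul]
    push_cast
    ring
  refine ⟨s, t, r₁, r₂, r₃, hr₁, hr₂, hr₃, ?_, ?_, ?_, ?_, ?_⟩
  · rw [e1, Complex.real_smul]
  · exact fun τ h1 h2 => e2 (hseg _ _ τ h1 h2)
  · rw [← hR, e3, Complex.real_smul]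
  · rw [← hR, ← hR]
    nth_rewrite 1 [e4]
    rw [Complex.real_smul]
  · intro τ h1 h2
    apply e5
    rw [openSegment_symm]
    exact hseg _ _ τ h1 h2

end Pool.Agent.Results.MP_3080d1_gt.NoTwoReflectionFocus
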